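import Pool.Agent.W680.WH.Stm

/-!
Part WHH-GAM: the uniformly bounded homomorphic intertwiner.
-/

set_option autoImplicit false

open scoped ComplexConjugate InnerProductSpace
open ContinuousLinearMap Filter

namespace Pool.Agent.W368.WH

open Pool.Agent.W680.WH

theorem norm_le_one_of (V : E →L[ℂ] E) (h : adjoint V * V = 1) : ‖V‖ ≤ 1 := by
  have h1 : ‖adjoint V ∘L V‖ = ‖V‖ * ‖V‖ := ContinuousLinearMap.norm_adjoint_comp_self V
  have h2 : ‖adjoint V ∘L V‖ ≤ 1 := by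
    have h3 : adjoint V ∘L V = ContinuousLinearMap.id ℂ E := h
    rw [h3]
    exact ContinuousLinearMap.norm_id_le
  rw [h1] at h2
  nlinarith [norm_nonneg V]

/-- the unit of a lift -/
noncomputable def unit (hB : S_BLA) (V d : E →L[ℂ] E) (h1 : adjoint V * V = 1)
    (h2 : V * adjoint V = 1) : (E2 →L[ℂ] E2)ˣ where
  val := blk V (V * d) V
  inv := blk (adjoint V) (-(d * adjoint V)) (adjoint V)
  val_inv := by
    rw [hB.1, h2]
    have h3 : V * -(d * adjoint V) + V * d * adjoint V = 0 := by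
      rw [mul_neg, ← mul_assoc, neg_add_cancel]
    rw [h3, hB.2.1]
  inv_val := by
    rw [hB.1, h1]
    have h3 : adjoint V * (V * d) + -(d * adjoint V) * V = 0 := by
      rw [← mul_assoc, h1, one_mul, neg_mul, mul_assoc, h1, mul_one, add_neg_cancel]
    rw [h3, hB.2.1]

theorem gam (hX : S_LEX) (hU : S_LUN) (hM : S_LMU) (hP : S_POS) (hB : S_BLA) : S_GAM := by
  obtain ⟨-, C, hC⟩ := hX
  have hC' : ∀ φ : Mob, ∃ Vd : (E →L[ℂ] E) × (E →L[ℂ] E),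
      Lift φ Vd.1 Vd.2 ∧ ‖Vd.2‖ ≤ C ∧ Pos Vd.1 := by
    intro φ
    obtain ⟨k, l, r, V, d, γ, -, -, h1, h2, h3, -⟩ := hC φ
    exact ⟨(R k * V * R l, d), h1, h2, h3⟩
  choose W hL hd hW using hC'
  refine ⟨fun φ => unit hB (W φ).1 (W φ).2 (hL φ).1 (hL φ).2.1, 1 + C + 1, ?_, ?_, ?_⟩
  · intro φ
    exact (hL φ).2.2.2.2.2
  · intro φ ψ χ hχ
    have h1 := hM.1 φ ψ χ _ _ _ _ hχ (hL φ) (hL ψ)
    have h2 := hP φ ψ _ _ _ _ (hL φ) (hL ψ) (hW φ) (hW ψ)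
    obtain ⟨h3, -, h4⟩ := hU χ _ _ _ _ (hL χ) h1
    have h5 := h4 (hW χ) h2
    apply Units.ext
    show blk (W χ).1 ((W χ).1 * (W χ).2) (W χ).1 =
      blk (W φ).1 ((W φ).1 * (W φ).2) (W φ).1 * blk (W ψ).1 ((W ψ).1 * (W ψ).2) (W ψ).1
    rw [hB.1]
    have h6 : (W χ).1 * (W χ).2 =
        (W φ).1 * ((W ψ).1 * (W ψ).2) + (W φ).1 * (W φ).2 * (W ψ).1 := by
      rw [h3, h5, mul_add, mul_assoc (W φ).1 (W ψ).1 (W ψ).2]
      congr 1
      have h7 : (W φ).1 * (W ψ).1 * (adjoint (W ψ).1 * (W φ).2 * (W ψ).1) =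
          (W φ).1 * ((W ψ).1 * adjoint (W ψ).1) * (W φ).2 * (W ψ).1 := by
        simp only [mul_assoc]
      rw [h7, (hL ψ).2.1, mul_one]
    rw [h6, h5]
  · intro φ
    have h1 := hB.2.2.2.2.2.1 (W φ).1 ((W φ).1 * (W φ).2) (W φ).1
    have h2 := norm_le_one_of (W φ).1 (hL φ).1
    have h3 : ‖(W φ).1 * (W φ).2‖ ≤ C := by
      refine (norm_mul_le _ _).trans ?_
      calc ‖(W φ).1‖ * ‖(W φ).2‖ ≤ 1 * ‖(W φ).2‖ :=
            mul_le_mul_of_nonneg_right h2 (norm_nonneg _)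
        _ ≤ C := by rw [one_mul]; exact hd φ
    show ‖blk (W φ).1 ((W φ).1 * (W φ).2) (W φ).1‖ ≤ 1 + C + 1
    linarith

end Pool.Agent.W368.WH
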